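import Mathlib
import Pool.Agent.Helper47.Spread.Defs

/-!
# Powers of a smooth projective variety
-/

universe u v w

open CategoryTheory AlgebraicGeometry Limits

namespace Pool.Agent.Helper11.PW

open Pool.Agent.Helper10 Pool.Agent.Helper10.SmProjVar Pool.Agent.Helper47.Chow
open Pool.Agent.Helper47.Desc

noncomputable section

variable {k : Type u} [Field k]

/-- `P` with the morphisms `p t`, `t ∈ T`, is the power `X^T` (universal property). -/
structure IsPow (X : SmProjVar k) {T : Type} (P : SmProjVar k)
    (p : T → (P.toOver ⟶ X.toOver)) : Prop where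
  exists_lift : ∀ (Z : Over (Spec (CommRingCat.of k))) (f : T → (Z ⟶ X.toOver)),
    ∃ h : Z ⟶ P.toOver, ∀ t, h ≫ p t = f t
  unique : ∀ (Z : Over (Spec (CommRingCat.of k))) (h h' : Z ⟶ P.toOver),
    (∀ t, h ≫ p t = h' ≫ p t) → h = h'

/-- A power `X^T`. -/
structure Pow (X : SmProjVar k) (T : Type) where
  var : SmProjVar k
  pr : T → (var.toOver ⟶ X.toOver)
  isPow : IsPow X var pr

namespace Pow

variable {X : SmProjVar k} {T S N : Type}

/-- The morphism to `X^T` with given components. -/
def lift (A : Pow X T) {Z : Over (Spec (CommRingCat.of k))} (f : T → (Z ⟶ X.toOver)) :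
    Z ⟶ A.var.toOver :=
  Classical.choose (A.isPow.exists_lift Z f)

lemma lift_pr (A : Pow X T) {Z : Over (Spec (CommRingCat.of k))} (f : T → (Z ⟶ X.toOver))
    (t : T) : A.lift f ≫ A.pr t = f t :=
  Classical.choose_spec (A.isPow.exists_lift Z f) t

lemma hom_ext (A : Pow X T) {Z : Over (Spec (CommRingCat.of k))} {h h' : Z ⟶ A.var.toOver}
    (e : ∀ t, h ≫ A.pr t = h' ≫ A.pr t) : h = h' := A.isPow.unique Z h h' e

/-- The morphism `X^T ⟶ X^N` given by a map `f : N → T`: a projection if `f` is injective, a
partial diagonal if `f` is surjective. -/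
def map (A : Pow X T) (B : Pow X N) (f : N → T) : A.var.toOver ⟶ B.var.toOver :=
  B.lift fun s => A.pr (f s)

lemma map_pr (A : Pow X T) (B : Pow X N) (f : N → T) (s : N) :
    A.map B f ≫ B.pr s = A.pr (f s) := B.lift_pr _ s

lemma map_comp (A : Pow X T) (B : Pow X N) (D : Pow X S) (f : N → T) (g : S → N) :
    A.map B f ≫ B.map D g = A.map D (f ∘ g) := by
  apply D.hom_ext
  intro s
  rw [Category.assoc, map_pr, map_pr, map_pr]
  rfl

lemma map_id (A : Pow X T) : A.map A id = 𝟙 _ := by
  apply A.hom_ext
  intro s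
  rw [map_pr, Category.id_comp]
  rfl

/-- The product of two powers. -/
def prod (A : Pow X T) (B : Pow X S) : Pow X (T ⊕ S) where
  var := A.var.prod B.var
  pr := Sum.elim (fun t => fst A.var B.var ≫ A.pr t) fun s => snd A.var B.var ≫ B.pr s
  isPow := by
    refine ⟨fun Z f => ?_, fun Z h h' e => ?_⟩
    · let h1 := A.lift fun t => f (Sum.inl t)
      let h2 := B.lift fun t => f (Sum.inr t)
      let l : Z.left ⟶ (A.var.prod B.var).toOver.left :=
        pullback.lift (f := A.var.toOver.hom) (g := B.var.toOver.hom) h1.left h2.left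
          (by rw [Over.w h1, Over.w h2])
      have e1 : l ≫ (fst A.var B.var).left = h1.left := pullback.lift_fst _ _ _
      have e2 : l ≫ (snd A.var B.var).left = h2.left := pullback.lift_snd _ _ _
      have hl : l ≫ (A.var.prod B.var).toOver.hom = Z.hom := by
        rw [← Over.w (fst A.var B.var), ← Category.assoc, e1, Over.w h1]
      let h : Z ⟶ (A.var.prod B.var).toOver := Over.homMk l hl
      have e3 : h ≫ fst A.var B.var = h1 := by
        ext1
        exact e1
      have e4 : h ≫ snd A.var B.var = h2 := by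
        ext1
        exact e2
      refine ⟨h, ?_⟩
      rintro (t | s)
      · change h ≫ fst A.var B.var ≫ A.pr t = f (Sum.inl t)
        rw [← Category.assoc, e3]
        exact A.lift_pr _ t
      · change h ≫ snd A.var B.var ≫ B.pr s = f (Sum.inr s)
        rw [← Category.assoc, e4]
        exact B.lift_pr _ s
    · have e1 : h ≫ fst A.var B.var = h' ≫ fst A.var B.var := by
        apply A.hom_ext
        intro t
        have := e (Sum.inl t)
        simpa using this
      have e2 : h ≫ snd A.var B.var = h' ≫ snd A.var B.var := by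
        apply B.hom_ext
        intro t
        have := e (Sum.inr t)
        simpa using this
      ext1
      apply pullback.hom_ext
      · exact congrArg CommaMorphism.left e1
      · exact congrArg CommaMorphism.left e2

lemma prod_pr_inl (A : Pow X T) (B : Pow X S) (t : T) :
    (A.prod B).pr (Sum.inl t) = fst A.var B.var ≫ A.pr t := rfl

lemma prod_pr_inr (A : Pow X T) (B : Pow X S) (s : S) :
    (A.prod B).pr (Sum.inr s) = snd A.var B.var ≫ B.pr s := rfl

/-- `X` itself is the power with one factor. -/
def single (X : SmProjVar k) : Pow X Unit where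
  var := X
  pr := fun _ => 𝟙 _
  isPow := ⟨fun Z f => ⟨f (), fun t => by rw [Category.comp_id]⟩, fun Z h h' e => by
    have := e ()
    rwa [Category.comp_id, Category.comp_id] at this⟩

/-- Relabelling. -/
def relabel (A : Pow X T) (e : S ≃ T) : Pow X S where
  var := A.var
  pr := fun s => A.pr (e s)
  isPow := ⟨fun Z f => ⟨A.lift fun t => f (e.symm t), fun s => by
      rw [A.lift_pr, Equiv.symm_apply_apply]⟩, fun Z h h' e' => A.hom_ext fun t => by
      have := e' (e.symm t)
      rwa [Equiv.apply_symm_apply] at this⟩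

/-- The morphism `X^T ⟶ M^T` given by `j : X ⟶ M`. -/
def mapOver {M : SmProjVar k} (A : Pow X T) (B : Pow M T) (j : X.toOver ⟶ M.toOver) :
    A.var.toOver ⟶ B.var.toOver :=
  B.lift fun t => A.pr t ≫ j

lemma mapOver_pr {M : SmProjVar k} (A : Pow X T) (B : Pow M T) (j : X.toOver ⟶ M.toOver) (t : T) :
    A.mapOver B j ≫ B.pr t = A.pr t ≫ j := B.lift_pr _ t

/-- The semilinear lift of morphisms. -/
theorem exists_semi (A : Pow X T) (g : SemiAut X) :
    ∃ h : A.var.toOver.left ⟶ A.var.toOver.left,
      h ≫ A.var.toOver.hom = A.var.toOver.hom ≫ g.base ∧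
      ∀ t, h ≫ (A.pr t).left = (A.pr t).left ≫ g.sch := by
  let Z : Over (Spec (CommRingCat.of k)) := Over.mk (A.var.toOver.hom ≫ g.base)
  let f : T → (Z ⟶ X.toOver) := fun t => Over.homMk ((A.pr t).left ≫ g.sch) (by
    change ((A.pr t).left ≫ g.sch) ≫ X.toOver.hom = A.var.toOver.hom ≫ g.base
    rw [Category.assoc, g.sch_hom, ← Category.assoc, Over.w])
  refine ⟨(A.lift f).left, Over.w (A.lift f), fun t => ?_⟩
  exact congrArg CommaMorphism.left (A.lift_pr f t)

lemma semi_unique (A : Pow X T) {Z : Scheme.{u}} (h h' : Z ⟶ A.var.toOver.left)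
    (e : h ≫ A.var.toOver.hom = h' ≫ A.var.toOver.hom)
    (e' : ∀ t, h ≫ (A.pr t).left = h' ≫ (A.pr t).left) : h = h' := by
  let Z' : Over (Spec (CommRingCat.of k)) := Over.mk (h ≫ A.var.toOver.hom)
  let l : Z' ⟶ A.var.toOver := Over.homMk h rfl
  let l' : Z' ⟶ A.var.toOver := Over.homMk h' e.symm
  have : l = l' := A.hom_ext fun t => by
    ext1
    exact e' t
  exact congrArg CommaMorphism.left this

/-- The automorphism `g^T` of `X^T` given by a semilinear automorphism `g` of `X`. -/
theorem exists_aut (A : Pow X T) (g : SemiAut X) :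
    ∃ h : SemiAut A.var, h.base = g.base ∧
      ∀ t, h.sch ≫ (A.pr t).left = (A.pr t).left ≫ g.sch := by
  obtain ⟨h, h1, h2⟩ := A.exists_semi g
  obtain ⟨h', h1', h2'⟩ := A.exists_semi g⁻¹
  have e1 : h ≫ h' = 𝟙 _ := by
    apply A.semi_unique
    · rw [Category.assoc, h1', ← Category.assoc, h1, Category.assoc, SemiAut.base_base_inv,
        Category.comp_id, Category.id_comp]
    · intro t
      rw [Category.assoc, h2', ← Category.assoc, h2, Category.assoc, SemiAut.sch_sch_inv,
        Category.comp_id, Category.id_comp]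
  have e2 : h' ≫ h = 𝟙 _ := by
    apply A.semi_unique
    · rw [Category.assoc, h1, ← Category.assoc, h1', Category.assoc, SemiAut.base_inv_base,
        Category.comp_id, Category.id_comp]
    · intro t
      rw [Category.assoc, h2, ← Category.assoc, h2', Category.assoc, SemiAut.sch_inv_sch,
        Category.comp_id, Category.id_comp]
  let a : SemiAut A.var :=
    { hom := Arrow.homMk (u := h) (v := g.base) h1
      inv := Arrow.homMk (u := h') (v := g⁻¹.base) h1'
      hom_inv_id := Arrow.hom_ext _ _ e1 (SemiAut.base_base_inv g)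
      inv_hom_id := Arrow.hom_ext _ _ e2 (SemiAut.base_inv_base g) }
  exact ⟨a, rfl, h2⟩

def aut (A : Pow X T) (g : SemiAut X) : SemiAut A.var := Classical.choose (A.exists_aut g)

lemma aut_base (A : Pow X T) (g : SemiAut X) : (A.aut g).base = g.base :=
  (Classical.choose_spec (A.exists_aut g)).1

lemma aut_pr (A : Pow X T) (g : SemiAut X) (t : T) :
    (A.aut g).sch ≫ (A.pr t).left = (A.pr t).left ≫ g.sch :=
  (Classical.choose_spec (A.exists_aut g)).2 t

lemma semiAut_ext (A : Pow X T) {g h : SemiAut A.var} (e : g.base = h.base)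
    (e' : ∀ t, g.sch ≫ (A.pr t).left = h.sch ≫ (A.pr t).left) : g = h := by
  have h1 : g.sch = h.sch := A.semi_unique _ _ (by rw [g.sch_hom, h.sch_hom, e]) e'
  apply Iso.ext
  exact Arrow.hom_ext _ _ h1 e

/-- `g ↦ g^T`. -/
def autHom (A : Pow X T) : SemiAut X →* SemiAut A.var where
  toFun := A.aut
  map_one' := by
    apply A.semiAut_ext
    · rw [aut_base]
      rfl
    · intro t
      rw [aut_pr, SemiAut.sch_one, SemiAut.sch_one, Category.comp_id, Category.id_comp]
  map_mul' := by
    intro g h
    apply A.semiAut_ext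
    · rw [aut_base, SemiAut.base_mul, SemiAut.base_mul, aut_base, aut_base]
    · intro t
      rw [aut_pr, SemiAut.sch_mul, SemiAut.sch_mul, Category.assoc, aut_pr, ← Category.assoc,
        ← Category.assoc, aut_pr]

lemma map_aut (A : Pow X T) (B : Pow X N) (f : N → T) (g : SemiAut X) :
    (A.map B f).left ≫ (B.aut g).sch = (A.aut g).sch ≫ (A.map B f).left := by
  apply B.semi_unique
  · rw [Category.assoc, SemiAut.sch_hom, ← Category.assoc, Over.w, Category.assoc, Over.w,
      SemiAut.sch_hom, aut_base, aut_base]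
  · intro t
    rw [Category.assoc, aut_pr, ← Category.assoc, ← Over.comp_left, map_pr, Category.assoc,
      ← Over.comp_left, map_pr, aut_pr]

end Pow

end

end Pool.Agent.Helper11.PW
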