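import Mathlib
import Pool.Agent.Helper11.PW.St.B1
import Pool.Agent.Helper11.PW.St.D0
import Pool.Agent.Helper47.Desc.Dec

/-!
# Powers: the definitions for the algebra
-/

universe u v w

open CategoryTheory AlgebraicGeometry Limits

namespace Pool.Agent.Helper11.PW

open Pool.Agent.Helper10 Pool.Agent.Helper10.SmProjVar Pool.Agent.Helper47.Chow
open Pool.Agent.Helper47.Desc

noncomputable section

/-- A commutative square of maps of sets `f : S → T`, `g : S → N`, `i : T → P`, `j : N → P` such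
that `P` is the pushout of `T` and `N` over `S`, and `g`, `i` are injective. -/
structure SqInj {S T N P : Type} (f : S → T) (g : S → N) (i : T → P) (j : N → P) : Prop where
  comm : ∀ s, i (f s) = j (g s)
  inj_g : Function.Injective g
  inj_i : Function.Injective i
  inj_j : ∀ a b, a ∉ Set.range g → b ∉ Set.range g → j a = j b → a = b
  disj : ∀ t a, a ∉ Set.range g → i t ≠ j a
  cover : ∀ p, p ∈ Set.range i ∨ p ∈ Set.range j

/-- The index set with one element left out. -/
abbrev Del (N : Type) (t : N) : Type := {s : N // s ≠ t}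

section Geometry

variable {k : Type u} [Field k] {X : SmProjVar k} {N : Type} [Finite N]

/-- The power with the coordinate `t` left out. -/
def del (X : SmProjVar k) (t : N) : Pow X (Del N t) := pw X (Del N t)

/-- The projection `q_t` which forgets the coordinate `t`. -/
def forget (B : Pow X N) (t : N) : B.var.toOver ⟶ (del X t).var.toOver :=
  B.map (del X t) Subtype.val

end Geometry

variable {k : Type u} [Field k] {K : Type v} [Field K] [CharZero K]
  {W : WeilCohomology.{u, v, w} k K} (C : ChowTheory W) {X : SmProjVar k} {N : Type}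

/-- `p_t^* a`. -/
def at' (B : Pow X N) (t : N) (a : CH X) : CH B.var := C.pull (B.pr t) a

section Ops

variable [Finite N]

/-- The operator `w ↦ p_t^* u · q_t^* q_{t *} (p_t^* v · w)`: composition with `v × u` or `u × v`
in the coordinate `t`. -/
def E (B : Pow X N) (t : N) (u v : CH X) : CH B.var →ₗ[ℚ] CH B.var :=
  C.mul B.var (at' C B t u) ∘ₗ C.pull (forget B t) ∘ₗ C.push (forget B t) ∘ₗ
    C.mul B.var (at' C B t v)

/-- The symbol of an operator in one coordinate: a multiple of the identity plus a sum of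
operators `E_t(u, v)`. -/
abbrev Sym (X : SmProjVar k) : Type u := ℚ × List (CH X × CH X)

/-- The operator with the given symbol in the coordinate `t`. -/
def Φ (B : Pow X N) (t : N) (σ : Sym X) : CH B.var →ₗ[ℚ] CH B.var :=
  σ.1 • LinearMap.id + (σ.2.map fun p => E C B t p.1 p.2).sum

/-- The composition of the operators with the symbols `σ t`, `t` in the list `l`. -/
def Φs (B : Pow X N) (σ : N → Sym X) : List N → (CH B.var →ₗ[ℚ] CH B.var)
  | [] => LinearMap.id
  | t :: l => Φ C B t (σ t) ∘ₗ Φs B σ l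

end Ops

/-- The transposed symbol. -/
def Sym.tr (σ : Sym X) : Sym X := (σ.1, σ.2.map fun p => (p.2, p.1))

/-- The symbol `1 - ∑ (u_α, v_α)`. -/
def vanSym (σ : List (CH X × CH X)) : Sym X := (1, σ.map fun p => (-p.1, p.2))

/-- The properties of the family of the ambient classes. -/
structure IsAmb (𝒜 : ℕ → Submodule ℚ (CH X)) : Prop where
  mem : ∀ i, ∀ a ∈ 𝒜 i, a ∈ CHi X i
  mul : ∀ i j, ∀ a ∈ 𝒜 i, ∀ b ∈ 𝒜 j, C.mul X a b ∈ 𝒜 (i + j)
  one_mem : one X ∈ 𝒜 0
  zero_eq : ∀ a ∈ 𝒜 0, ∃ q : ℚ, a = q • one X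

variable (𝒜 : ℕ → Submodule ℚ (CH X))

/-- The monomials of codimension `c` in the classes `p_t^* a`, `a ∈ 𝒜 i`. -/
inductive Mon (B : Pow X N) : ℕ → CH B.var → Prop
  | unit : Mon B 0 (one B.var)
  | mul {i c : ℕ} (t : N) (a : CH X) (m : CH B.var) : a ∈ 𝒜 i → Mon B c m →
      Mon B (i + c) (C.mul B.var (at' C B t a) m)

/-- The span of the push-forwards of the monomials on the partial diagonals `X^T` of `X^N` which
have excess `e = 2 c - |N| d` (`c` the codimension, `d = dim X`). -/
def Taut (B : Pow X N) (e : ℤ) : Submodule ℚ (CH B.var) :=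
  Submodule.span ℚ {w | ∃ (T : Type) (_ : Finite T) (A : Pow X T) (f : N → T) (i : ℕ)
    (m : CH A.var), Function.Surjective f ∧ Mon C 𝒜 A i m ∧
      e = 2 * i + Nat.card N * X.dim - 2 * (Nat.card T * X.dim) ∧ w = C.push (A.map B f) m}

/-- The family of pairs `(u_α, v_α)` of ambient classes of complementary codimension satisfies
`∑ deg (v_α a) u_α = a` for `a ∈ 𝒜 i`, `2 i ≤ d`. -/
def Complete (σ : List (CH X × CH X)) : Prop :=
  (∀ p ∈ σ, ∃ i j, i + j = X.dim ∧ p.1 ∈ 𝒜 i ∧ p.2 ∈ 𝒜 j) ∧
    ∀ i, 2 * i ≤ X.dim → ∀ a ∈ 𝒜 i,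
      (σ.map fun p => deg C X (C.mul X p.2 a) • p.1).sum = a

/-- `x` is a class of degree `d = dim X` which is orthogonal to the ambient classes. -/
def Vanishing (x : W.H X) : Prop :=
  x ∈ W.gr X X.dim ∧ ∀ i, ∀ a ∈ 𝒜 i, W.tr X (C.cl X a * x) = 0

/-- The classes `z t` detect the matching `τ`. -/
def Detects (τ : N → N) (z : N → W.H X) : Prop :=
  (∀ t, Vanishing C 𝒜 (z t)) ∧ (∀ t, W.tr X (z t * z (τ t)) ≠ 0) ∧
    ∀ s t, t ≠ s → t ≠ τ s → W.tr X (z s * z t) = 0

/-- Every matching of `N` is detected. -/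
def HasFrames (N : Type) : Prop :=
  ∀ τ : N → N, (∀ t, τ t ≠ t) → (∀ t, τ (τ t) = t) → ∃ z : N → W.H X, Detects C 𝒜 τ z

end

end Pool.Agent.Helper11.PW
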