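import Mathlib
import Pool.Agent.Helper47.Zero.Defs

/-!
# Powers of zero loci of generic sections: the definitions used in the statement
-/

universe u v w

open CategoryTheory AlgebraicGeometry Limits

namespace Pool.Agent.Helper11.Powers

open Pool.Agent.Helper10 Pool.Agent.Helper10.SmProjVar Pool.Agent.Helper47.Chow
open Pool.Agent.Helper47.Desc (SemiAut)
open Pool.Agent.Helper47.Zero

noncomputable section

section Points

variable {Y P : Scheme.{u}} {r : ℕ} {I T : Type}

/-- The coordinates of the `s_l` at the points `p t z`, `t ∈ T`, as functions of `z ∈ P`. -/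
def coords (S : Sections Y r I) (p : T → (P ⟶ Y)) (i : T → S.ι) (c : T × Fin r) (l : I) :
    Fn P (⨅ t, p t ⁻¹ᵁ S.U (i t)) :=
  res (iInf_le (fun t => p t ⁻¹ᵁ S.U (i t)) c.1) (pb (p c.1) (S.f (i c.1) c.2 l))

/-- A minor of the matrix of the coordinates of the `s_l` at the points `p t z`, `t ∈ T`. -/
def minor [Fintype T] [DecidableEq T] (S : Sections Y r I) (p : T → (P ⟶ Y)) (i : T → S.ι)
    (J : T × Fin r → I) : Fn P (⨅ t, p t ⁻¹ᵁ S.U (i t)) :=
  Matrix.det (Matrix.of fun c c' => coords S p i c (J c'))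

/-- Any at most `m` distinct points of `M₀` (with values in a field `E`) impose independent
conditions on the combinations of the `s_l`: for `|T| ≤ m` distinct points `x t` a minor of size
`|T| r` of the matrix of the coordinates does not vanish. -/
def Independent {F : Type u} [Field F] {M₀ : SmProjVar F} (S : Sections M₀.toOver.left r I)
    (m : ℕ) : Prop :=
  ∀ (T : Type) [Fintype T] [DecidableEq T], Fintype.card T ≤ m → ∀ (E : Type u) [Field E]
    (x : T → (Spec (CommRingCat.of E) ⟶ M₀.toOver.left)),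
    (∀ s t, x s ≫ M₀.toOver.hom = x t ≫ M₀.toOver.hom) → Function.Injective x →
      ∀ z, ∃ (i : T → S.ι) (J : T × Fin r → I), NonzeroAt (minor S x i J) z

end Points

section Varieties

variable {K : Type u} [Field K] {L : Type v} [Field L] [CharZero L]
  {W : WeilCohomology.{u, v, w} K L} (C : ChowTheory W) {M X : SmProjVar K}

/-- `P`, with the projections `p i`, `i < n`, is the power `X^n`. -/
structure IsPower (X : SmProjVar K) {n : ℕ} (P : SmProjVar K)
    (p : Fin n → (P.toOver ⟶ X.toOver)) : Prop where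
  exists_lift : ∀ (Z : Over (Spec (CommRingCat.of K))) (f : Fin n → (Z ⟶ X.toOver)),
    ∃ h : Z ⟶ P.toOver, ∀ i, h ≫ p i = f i
  unique : ∀ (Z : Over (Spec (CommRingCat.of K))) (h h' : Z ⟶ P.toOver),
    (∀ i, h ≫ p i = h' ≫ p i) → h = h'

/-- The motive of `Y` is a direct summand of a sum of Tate twists of the motive of `P`: there are
correspondences `β i : Y → P` of degree `s i - dim Y` and `α i : P → Y` of degree
`t i - dim P = dim Y - s i` such that the sum of the `α i ∘ β i` is the class of the diagonal. -/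
def IsSummand (P Y : SmProjVar K) : Prop :=
  ∃ (m : ℕ) (s t : Fin m → ℕ) (β : Fin m → CH (Y.prod P)) (α : Fin m → CH (P.prod Y)),
    (∀ i, s i + t i = Y.dim + P.dim ∧ β i ∈ CHi (Y.prod P) (s i) ∧
      α i ∈ CHi (P.prod Y) (t i)) ∧ ∑ i, C.comp (β i) (α i) = C.Δ Y

/-- The diagonal of `M` is a combination of exterior products `b × a` with `b ∈ CH^j(M)`,
`a ∈ CH^i(M)`, `i + j = dim M`. -/
def DiagonalDecomposes (M : SmProjVar K) : Prop :=
  C.Δ M ∈ Submodule.span ℚ {z | ∃ i j, i + j = M.dim ∧ ∃ b ∈ CHi M j, ∃ a ∈ CHi M i,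
    z = C.ops.mul (M.prod M) (C.ops.pull (fst M M) b) (C.ops.pull (snd M M) a)}

/-- The semilinear automorphisms of `M` over `M₀` act trivially on `CH(M)`. -/
def ActsTrivially {F : Type u} [Field F] {M₀ : SmProjVar F}
    (pM : M.toOver.left ⟶ M₀.toOver.left) : Prop :=
  ∀ h : SemiAut M, h.sch ≫ pM = pM → ∀ z : CH M, h.chow z = z

/-- For `i ≤ d / 2`, `d = dim X`, the intersection pairing of the restrictions to `X` of the classes
of codimension `i` on `M` with those of codimension `d - i` has no left kernel. -/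
def Nondegenerate (j : X.toOver ⟶ M.toOver) : Prop :=
  ∀ i l, i + l = X.dim → i ≤ l → ∀ a ∈ CHi M i,
    (∀ b ∈ CHi M l, dual W (C.ops.cl X (C.ops.pull j a)) (C.ops.cl X (C.ops.pull j b)) = 0) →
      C.ops.pull j a = 0

variable (W) in
/-- `x ∈ H^d(X)`, `d = dim X`, is orthogonal to the restrictions of the elements of `H(M)`. -/
def IsVanishing (j : X.toOver ⟶ M.toOver) (x : W.H X) : Prop :=
  InDeg W X.dim x ∧ ∀ y : W.H M, dual W (W.pull j y) x = 0

variable (W) in
/-- For `l ≠ d`, `d = dim X`, all elements of `H^l(X)` are restrictions of elements of `H(M)`. -/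
def AmbientOffMiddle (j : X.toOver ⟶ M.toOver) : Prop :=
  ∀ l, l ≠ X.dim → ∀ x : W.H X, InDeg W l x → ∃ y : W.H M, W.pull j y = x

variable (W) in
/-- The vanishing part of `H^d(X)`, `d = dim X`, has dimension at least `n` if `d` is even, at
least `2 n` if `d` is odd. -/
def VanishingDimAtLeast (j : X.toOver ⟶ M.toOver) (n : ℕ) : Prop :=
  ∃ (b : ℕ) (x : Fin b → W.H X), (∀ i, IsVanishing W j (x i)) ∧ LinearIndependent L x ∧
    (if Even X.dim then n ≤ b else 2 * n ≤ b)

end Varieties

end

end Pool.Agent.Helper11.Powers
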