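import Mathlib
import Pool.Agent.Helper11.PW.Pow

/-!
# The morphism `X^T ⟶ M₀^T`
-/

universe u v w

open CategoryTheory AlgebraicGeometry Limits

namespace Pool.Agent.Helper11.PW

open Pool.Agent.Helper10 Pool.Agent.Helper10.SmProjVar Pool.Agent.Helper47.Chow
open Pool.Agent.Helper47.Desc Pool.Agent.Helper47.Spread

noncomputable section

variable {F K : Type u} [Field F] [Field K] [Algebra F K] {M₀ : SmProjVar F} {X : SmProjVar K}
  {T N : Type}

/-- The morphism `X^T ⟶ M₀^T` given by `π : X ⟶ M₀`. -/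
def thetaPow (A : Pow X T) (A₀ : Pow M₀ T) (π : X.toOver.left ⟶ M₀.toOver.left)
    (w : π ≫ M₀.toOver.hom = X.toOver.hom ≫ specMap F K) :
    A.var.toOver.left ⟶ A₀.var.toOver.left :=
  (A₀.lift (Z := Over.mk (A.var.toOver.hom ≫ specMap F K)) fun t =>
    Over.homMk ((A.pr t).left ≫ π) (by
      change ((A.pr t).left ≫ π) ≫ M₀.toOver.hom = A.var.toOver.hom ≫ specMap F K
      rw [Category.assoc, w, ← Category.assoc, Over.w])).left

lemma thetaPow_pr (A : Pow X T) (A₀ : Pow M₀ T) (π : X.toOver.left ⟶ M₀.toOver.left)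
    (w : π ≫ M₀.toOver.hom = X.toOver.hom ≫ specMap F K) (t : T) :
    thetaPow A A₀ π w ≫ (A₀.pr t).left = (A.pr t).left ≫ π :=
  congrArg CommaMorphism.left (A₀.lift_pr _ t)

lemma thetaPow_hom (A : Pow X T) (A₀ : Pow M₀ T) (π : X.toOver.left ⟶ M₀.toOver.left)
    (w : π ≫ M₀.toOver.hom = X.toOver.hom ≫ specMap F K) :
    thetaPow A A₀ π w ≫ A₀.var.toOver.hom = A.var.toOver.hom ≫ specMap F K :=
  Over.w (A₀.lift _)

lemma map_thetaPow (A : Pow X T) (A₀ : Pow M₀ T) (B : Pow X N) (B₀ : Pow M₀ N)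
    (π : X.toOver.left ⟶ M₀.toOver.left)
    (w : π ≫ M₀.toOver.hom = X.toOver.hom ≫ specMap F K) (f : N → T) :
    (A.map B f).left ≫ thetaPow B B₀ π w = thetaPow A A₀ π w ≫ (A₀.map B₀ f).left := by
  apply B₀.semi_unique
  · rw [Category.assoc, thetaPow_hom, ← Category.assoc, Over.w, Category.assoc, Over.w,
      thetaPow_hom]
  · intro t
    rw [Category.assoc, thetaPow_pr, ← Category.assoc, ← Over.comp_left, Pow.map_pr,
      Category.assoc, ← Over.comp_left, Pow.map_pr, thetaPow_pr]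

lemma mapOver_thetaPow {M : SmProjVar K} (A : Pow X T) (A₀ : Pow M₀ T) (B : Pow M T)
    (pM : M.toOver.left ⟶ M₀.toOver.left)
    (w : pM ≫ M₀.toOver.hom = M.toOver.hom ≫ specMap F K) (j : X.toOver ⟶ M.toOver)
    (w' : (j.left ≫ pM) ≫ M₀.toOver.hom = X.toOver.hom ≫ specMap F K) :
    (A.mapOver B j).left ≫ thetaPow B A₀ pM w = thetaPow A A₀ (j.left ≫ pM) w' := by
  apply A₀.semi_unique
  · rw [Category.assoc, thetaPow_hom, ← Category.assoc, Over.w, thetaPow_hom]
  · intro t
    rw [Category.assoc, thetaPow_pr, ← Category.assoc, ← Over.comp_left, Pow.mapOver_pr,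
      thetaPow_pr, Over.comp_left, Category.assoc]

lemma aut_thetaPow (A : Pow X T) (A₀ : Pow M₀ T) (π : X.toOver.left ⟶ M₀.toOver.left)
    (w : π ≫ M₀.toOver.hom = X.toOver.hom ≫ specMap F K) (g : SemiAut X)
    (hg : g.sch ≫ π = π) (hb : g.base ≫ specMap F K = specMap F K) :
    (A.aut g).sch ≫ thetaPow A A₀ π w = thetaPow A A₀ π w := by
  apply A₀.semi_unique
  · rw [Category.assoc, thetaPow_hom, ← Category.assoc, SemiAut.sch_hom, Category.assoc,
      Pow.aut_base, hb]
  · intro t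
    rw [Category.assoc, thetaPow_pr, ← Category.assoc, Pow.aut_pr, Category.assoc, hg]

/-- The point `x` of `M₀^T` lies on no diagonal: its components are pairwise distinct. -/
def IsReduced (A₀ : Pow M₀ T) (x : A₀.var.toOver.left) : Prop :=
  Function.Injective fun t => A₀.var.toOver.left.fromSpecResidueField x ≫ (A₀.pr t).left

end

end Pool.Agent.Helper11.PW
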