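import Mathlib
import Pool.Agent.Helper11.PW.Theta
import Pool.Agent.Helper47.Spread.Chart

/-!
# The sections on `M₀^T` given by sections on `M₀`
-/

universe u v w

open CategoryTheory AlgebraicGeometry Limits

namespace Pool.Agent.Helper11.PW

open Pool.Agent.Helper10 Pool.Agent.Helper10.SmProjVar Pool.Agent.Helper47.Chow
open Pool.Agent.Helper47.Desc Pool.Agent.Helper47.Spread

noncomputable section

variable {F : Type u} [Field F] {M₀ : SmProjVar F} {r R : ℕ} {I : Type} {T : Type}

/-- The charts of `M₀^T`: affine open subsets whose projections lie in charts of `M₀`. -/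
structure PowIdx (S : Sections M₀ r I) (A₀ : Pow M₀ T) : Type u where
  i : T → S.ι
  V : A₀.var.toOver.left.Opens
  affine : IsAffineOpen V
  le : ∀ t, V ≤ (A₀.pr t).left ⁻¹ᵁ S.U (i t)

/-- The coordinates of the sections at the components of the points of `M₀^T`. -/
def powF (S : Sections M₀ r I) (A₀ : Pow M₀ T) (x : PowIdx S A₀) (q : T × Fin r) (l : I) :
    Γ(A₀.var.toOver.left, x.V) :=
  res (x.le q.1) (pb (A₀.pr q.1).left (S.U (x.i q.1)) (S.f (x.i q.1) q.2 l))

lemma exists_powIdx [Finite T] (S : Sections M₀ r I) (A₀ : Pow M₀ T) (x : A₀.var.toOver.left)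
    (i : T → S.ι) (hi : ∀ t, (A₀.pr t).left x ∈ S.U (i t)) :
    ∃ y : PowIdx S A₀, y.i = i ∧ x ∈ y.V := by
  have h1 : IsOpen (⋂ t, (((A₀.pr t).left ⁻¹ᵁ S.U (i t) : A₀.var.toOver.left.Opens) :
      Set A₀.var.toOver.left)) := isOpen_iInter_of_finite fun t => ((A₀.pr t).left ⁻¹ᵁ S.U (i t)).2
  have h2 : x ∈ (⟨_, h1⟩ : A₀.var.toOver.left.Opens) := Set.mem_iInter.mpr hi
  obtain ⟨V, hV, hxV, hle⟩ := exists_isAffineOpen_mem_and_subset h2
  exact ⟨⟨i, V, hV, fun t y hy => Set.mem_iInter.mp (hle hy) t⟩, rfl, hxV⟩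

lemma res_pb {Z Z' : Scheme.{u}} (f : Z ⟶ Z') {V V' : Z'.Opens} (h : V ≤ V')
    (x : Γ(Z', V')) : pb f V (res h x) = res (Scheme.Hom.preimage_mono f h) (pb f V' x) := by
  unfold pb res
  have := f.naturality (homOfLE h).op
  exact congrArg (fun φ => φ.hom x) this

open Classical in
/-- The sections on `M₀^T`. -/
def powSections [Finite T] (S : Sections M₀ r I) (A₀ : Pow M₀ T) (e : Fin R ≃ T × Fin r) :
    Sections A₀.var R I where
  ι := PowIdx S A₀
  U := fun x => x.V
  affine := fun x => x.affine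
  cover := fun x => by
    choose i hi using fun t => S.cover ((A₀.pr t).left x)
    obtain ⟨y, -, hy⟩ := exists_powIdx S A₀ x i hi
    exact ⟨y, hy⟩
  f := fun x q l => powF S A₀ x (e q) l
  glue := fun x x' => by
    choose G hG using fun t => S.glue (x.i t) (x'.i t)
    have hle : ∀ t, x.V ⊓ x'.V ≤ (A₀.pr t).left ⁻¹ᵁ (S.U (x.i t) ⊓ S.U (x'.i t)) := fun t =>
      le_inf (inf_le_left.trans (x.le t)) (inf_le_right.trans (x'.le t))
    refine ⟨Matrix.of fun q q' => if (e q).1 = (e q').1 then
      res (hle (e q).1) (pb (A₀.pr (e q).1).left _ (G (e q).1 (e q).2 (e q').2)) else 0,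
      fun q l => ?_⟩
    have hR : ∑ q' : Fin R, (Matrix.of fun q q' => if (e q).1 = (e q').1 then
        res (hle (e q).1) (pb (A₀.pr (e q).1).left _ (G (e q).1 (e q).2 (e q').2)) else 0) q q' *
          res inf_le_left (powF S A₀ x (e q') l) = ∑ c : Fin r,
        res (hle (e q).1) (pb (A₀.pr (e q).1).left _ (G (e q).1 (e q).2 c)) *
          res inf_le_left (powF S A₀ x ((e q).1, c) l) := by
      let _ : Fintype T := Fintype.ofFinite T
      rw [← Equiv.sum_comp e.symm, Fintype.sum_prod_type, Finset.sum_eq_single (e q).1]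
      · refine Finset.sum_congr rfl fun c _ => ?_
        rw [Matrix.of_apply, Equiv.apply_symm_apply, if_pos rfl]
      · intro t _ ht
        refine Finset.sum_eq_zero fun c _ => ?_
        rw [Matrix.of_apply, Equiv.apply_symm_apply, if_neg (Ne.symm ht), zero_mul]
      · intro h
        exact absurd (Finset.mem_univ _) h
    rw [hR]
    have h1 := congrArg (fun y => res (hle (e q).1) (pb (A₀.pr (e q).1).left _ y))
      (hG (e q).1 (e q).2 l)
    simp only [map_sum, map_mul] at h1
    rw [res_pb, res_comp] at h1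
    refine (res_comp _ _ _).trans (h1.trans (Finset.sum_congr rfl fun c _ => ?_))
    rw [res_pb, res_comp]
    unfold powF
    rw [res_comp]

end

end Pool.Agent.Helper11.PW
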