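import Mathlib
import Pool.Agent.Helper11.PW.St.A1
import Pool.Agent.Helper11.PW.St.B2
import Pool.Agent.Helper11.PW.St.B3
import Pool.Agent.Helper11.PW.St.B7
import Pool.Agent.Helper11.PW.St.B8
import Pool.Agent.Helper11.PW.St.B9
import Pool.Agent.Helper11.PW.St.B10
import Pool.Agent.Helper11.PW.St.B11
import Pool.Agent.Helper11.PW.St.B12
import Pool.Agent.Helper11.PW.St.C1
import Pool.Agent.Helper11.PW.St.C3f
import Pool.Agent.Helper11.PW.St.D5f

/-!
# Invariant classes on the powers of the zero locus of a generic section are tautological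
-/

universe u v w

open CategoryTheory AlgebraicGeometry Limits

namespace Pool.Agent.Helper11.PW

open Pool.Agent.Helper10 Pool.Agent.Helper10.SmProjVar Pool.Agent.Helper47.Chow
open Pool.Agent.Helper47.Desc Pool.Agent.Helper47.Spread

noncomputable section

variable {F K : Type u} [Field F] [Field K] [Algebra F K] {M₀ : SmProjVar F} {r : ℕ} {I : Type}
  [Fintype I] {L : Type v} [Field L] [CharZero L] {W : WeilCohomology.{u, v, w} K L}

section Setup

variable {S : Sections M₀ r I} {m : ℕ} {a : I → K}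
  {M X : SmProjVar K} {pM : M.toOver.left ⟶ M₀.toOver.left} {j : X.toOver ⟶ M.toOver}

/-- The action of the group of `X` on the power. -/
def rhoPow {N : Type} (B : Pow X N) (G : Subgroup (SemiAut X)) : G →* SemiAut B.var :=
  B.autHom.comp G.subtype

lemma rhoPow_apply {N : Type} (B : Pow X N) (G : Subgroup (SemiAut X)) (g : G) :
    rhoPow B G g = B.aut g.1 := rfl

/-- The local step at reduced points. -/
theorem localStep_reduced (hsep : SepPts S m) (ha : AlgebraicIndependent F a)
    [Normal (IntermediateField.adjoin F (Set.range a)) K]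
    (hM : IsPullback pM M.toOver.hom M₀.toOver.hom (specMap F K)) [IsClosedImmersion j.left]
    (hX : IsZeroLocus S a X (j.left ≫ pM)) (hdim : M.dim = X.dim + r)
    {C : ChowTheory W} (hC : IsEquivariant C) (hS : HasSupport C)
    (hΔ : C.Δ M ∈ decomposable C M) {T : Type} [Finite T] (hT : Nat.card T ≤ m) (A : Pow X T)
    (A₀ : Pow M₀ T) (x : A₀.var.toOver.left) (hx : IsReduced A₀ x) (p : ℕ) :
    LocalStep (rhoPow A (galGroup (F := F) a (j.left ≫ pM)))
      (fun y => thetaPow A A₀ (j.left ≫ pM) hX.w y)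
      (Taut C (ambL C j) A (2 * (A.var.dim - p : ℤ) - Nat.card T * X.dim)) p x := by
  classical
  let _ : Fintype T := Fintype.ofFinite T
  let B : Pow M T := pw M T
  let e : Fin (Fintype.card T * r) ≃ T × Fin r :=
    (Fintype.equivFinOfCardEq (by rw [Fintype.card_prod, Fintype.card_fin])).symm
  have hθ := mapOver_thetaPow A A₀ B pM hM.w j hX.w
  have hY := isZeroLocus_pow hX A A₀ e
  have : IsClosedImmersion (A.mapOver B j).left := isClosedImmersion_mapOver A B j
  have hY' : IsZeroLocus (powSections S A₀ e) a A.var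
      ((A.mapOver B j).left ≫ thetaPow B A₀ pM hM.w) := by
    rw [hθ]
    exact hY
  have hdim' : B.var.dim = A.var.dim + Fintype.card T * r := by
    rw [Pow.dim_eq W A, Pow.dim_eq W B, hdim, Nat.card_eq_fintype_card]
    ring
  obtain ⟨lev, hlev⟩ := local_step ha (thetaPow B A₀ pM hM.w) (isPullback_thetaPow pM hM B A₀)
    (A.mapOver B j) hY' hdim' hC hS x
    (genAt_of_reduced hsep (by rwa [← Nat.card_eq_fintype_card]) A₀ e x hx)
  have hgal : ∀ g : SemiAut A.var, g ∈ galGroup (F := F) a
      ((A.mapOver B j).left ≫ thetaPow B A₀ pM hM.w) ↔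
      g ∈ galGroup (F := F) a (thetaPow A A₀ (j.left ≫ pM) hX.w) := by
    intro g
    rw [hθ]
  have hθy : ∀ y : A.var.toOver.left, ((A.mapOver B j).left ≫ thetaPow B A₀ pM hM.w) y =
      thetaPow A A₀ (j.left ≫ pM) hX.w y := by
    intro y
    rw [hθ]
  refine ⟨lev, fun y hy hyx => ?_⟩
  obtain ⟨D, ⟨i, hi, z, hz, hD⟩, h1, h2, h3⟩ := hlev y ((hθy y).trans hyx)
  refine ⟨D, ?_, h1, fun g => ?_, fun y' hy' => ?_⟩
  · rw [hD]
    have hi' : (i : ℤ) = A.var.dim - p := by
      have : A.var.pointDim y + i = A.var.dim := hi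
      omega
    rw [← hi']
    have h4 := mem_span_mon hΔ B hz
    refine Submodule.span_induction (p := fun z _ => C.ops.pull (A.mapOver B j) z ∈
      Taut C (ambL C j) A (2 * (i : ℤ) - Nat.card T * X.dim)) ?_ ?_ ?_ ?_ h4
    · intro z hz
      exact taut_of_mon (hz.pull_mapOver j A B)
    · change C.pull (A.mapOver B j) 0 ∈ _
      rw [map_zero]
      exact Submodule.zero_mem _
    · intro x y _ _ hx hy
      change C.pull (A.mapOver B j) (x + y) ∈ _
      rw [map_add]
      exact Submodule.add_mem _ hx hy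
    · intro q x _ hx
      change C.pull (A.mapOver B j) (q • x) ∈ _
      rw [map_smul]
      exact Submodule.smul_mem _ _ hx
  · exact h2 _ ((hgal _).2 (aut_mem hX.w A A₀ g.2))
  · obtain ⟨h4, h5, h6⟩ := h3 y' hy'
    refine ⟨h4.trans hy, ?_, fun h => ?_⟩
    · rwa [hθy] at h5
    · rcases h6 ((hθy y').trans h) with ⟨g', hg', h7⟩ | h7
      · obtain ⟨g, hg, rfl⟩ := exists_aut_eq hX A A₀ ((hgal _).1 hg')
        exact Or.inl ⟨⟨g, hg⟩, h7⟩
      · exact Or.inr h7

/-- The local step at all points. -/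
theorem localStep_all (hsep : SepPts S m) (ha : AlgebraicIndependent F a)
    [Normal (IntermediateField.adjoin F (Set.range a)) K]
    (hM : IsPullback pM M.toOver.hom M₀.toOver.hom (specMap F K)) [IsClosedImmersion j.left]
    (hX : IsZeroLocus S a X (j.left ≫ pM)) (hdim : M.dim = X.dim + r)
    {C : ChowTheory W} (hC : IsEquivariant C) (hS : HasSupport C)
    (hΔ : C.Δ M ∈ decomposable C M) {N : Type} [Finite N] (hN : Nat.card N ≤ m) (B : Pow X N)
    (B₀ : Pow M₀ N) (x : B₀.var.toOver.left) (p : ℕ) :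
    LocalStep (rhoPow B (galGroup (F := F) a (j.left ≫ pM)))
      (fun y => thetaPow B B₀ (j.left ≫ pM) hX.w y)
      (Taut C (ambL C j) B (2 * (B.var.dim - p : ℤ) - Nat.card N * X.dim)) p x := by
  obtain ⟨T, hT, f, hf, h⟩ := exists_stratum B₀ x
  let A₀ : Pow M₀ T := pw M₀ T
  let A : Pow X T := pw X T
  obtain ⟨x', rfl, hx'⟩ := h A₀
  have hcard : Nat.card T ≤ Nat.card N := Nat.card_le_card_of_surjective f hf
  have h1 := localStep_reduced hsep ha hM hX hdim hC hS hΔ (hcard.trans hN) A A₀ x' hx' p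
  have : IsClosedImmersion (A.map B f).left := isClosedImmersion_map A B hf
  have : IsClosedImmersion (A₀.map B₀ f).left := isClosedImmersion_map A₀ B₀ hf
  refine LocalStep.trans (C := C) (A.map B f) (δ := fun x => (A₀.map B₀ f).left x)
    (fun g => Pow.map_aut A B f g.1) (A₀.map B₀ f).left.continuous
    (A₀.map B₀ f).left.isClosedEmbedding.injective ?_ ?_ ?_ h1
  · intro y'
    have h2 := map_thetaPow A A₀ B B₀ (j.left ≫ pM) hX.w f
    have h3 : ((A.map B f).left ≫ thetaPow B B₀ (j.left ≫ pM) hX.w) y' =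
        (thetaPow A A₀ (j.left ≫ pM) hX.w ≫ (A₀.map B₀ f).left) y' := by rw [h2]
    exact h3
  · intro y hy
    obtain ⟨y', hy', -⟩ := exists_point_over hX A B A₀ B₀ hf y x' hy
    exact ⟨y', hy'⟩
  · intro b hb
    have h2 := taut_push_map A B hf hb
    have h3 : (2 * (A.var.dim - p : ℤ) - Nat.card T * X.dim) +
        (Nat.card N - Nat.card T) * X.dim = 2 * (B.var.dim - p : ℤ) - Nat.card N * X.dim := by
      rw [Pow.dim_eq W A, Pow.dim_eq W B]
      push_cast
      ring
    rwa [h3] at h2

/-- **Theorem.** Invariant classes on powers are tautological. -/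
theorem mem_taut (hsep : SepPts S m) (ha : AlgebraicIndependent F a)
    [Normal (IntermediateField.adjoin F (Set.range a)) K]
    (hM : IsPullback pM M.toOver.hom M₀.toOver.hom (specMap F K)) [IsClosedImmersion j.left]
    (hX : IsZeroLocus S a X (j.left ≫ pM)) (hdim : M.dim = X.dim + r)
    {C : ChowTheory W} (hC : IsEquivariant C) (hS : HasSupport C)
    (hΔ : C.Δ M ∈ decomposable C M)
    (htriv : ∀ h : SemiAut M, h.sch ≫ pM = pM → ∀ z : CH M, h.chow z = z)
    {N : Type} [Finite N] (hN : Nat.card N ≤ m) (B : Pow X N) {c : ℕ} {γ : CH B.var}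
    (hγ : γ ∈ CHi B.var c)
    (hinv : ∀ g ∈ galGroup (F := F) a (j.left ≫ pM), (B.aut g).chow γ = γ) :
    γ ∈ Taut C (ambL C j) B (2 * c - Nat.card N * X.dim) := by
  classical
  let B₀ : Pow M₀ N := pw M₀ N
  let _ : Fintype N := Fintype.ofFinite N
  let e : Fin (Fintype.card N * r) ≃ N × Fin r :=
    (Fintype.equivFinOfCardEq (by rw [Fintype.card_prod, Fintype.card_fin])).symm
  let MN : Pow M N := pw M N
  have hθ := mapOver_thetaPow B B₀ MN pM hM.w j hX.w
  have : IsClosedImmersion (B.mapOver MN j).left := isClosedImmersion_mapOver B MN j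
  have hA : IsAffineHom ((B.mapOver MN j).left ≫ thetaPow MN B₀ pM hM.w) :=
    isAffineHom_comp (thetaPow MN B₀ pM hM.w) (isPullback_thetaPow pM hM MN B₀) (B.mapOver MN j)
  rw [hθ] at hA
  have hfin : ∀ y : B.var.Pt, (Set.range fun g =>
      (rhoPow B (galGroup (F := F) a (j.left ≫ pM)) g).pt y).Finite := by
    intro y
    refine (finite_orbits (isZeroLocus_pow hX B B₀ e) y).subset ?_
    rintro _ ⟨g, rfl⟩
    exact ⟨⟨B.aut g.1, aut_mem hX.w B B₀ g.2⟩, rfl⟩
  by_cases hc : B.var.dim < c
  · have : γ = 0 := by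
      obtain ⟨z, hz, rfl⟩ := hγ
      have : z = 0 := by
        refine Finsupp.ext fun x => ?_
        by_contra hx
        have := hz x hx
        omega
      rw [this]
      rfl
    rw [this]
    exact Submodule.zero_mem _
  · replace hc := not_lt.mp hc
    have hNn : AlgebraicGeometry.IsNoetherian B₀.var.toOver.left := isNoetherian_toOver B₀.var
    obtain ⟨z, hz, rfl⟩ := hγ
    have key := mem_of_localStep (rhoPow B (galGroup (F := F) a (j.left ≫ pM))) hfin
      (fun y => thetaPow B B₀ (j.left ≫ pM) hX.w y)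
      (Taut C (ambL C j) B (2 * (B.var.dim - (B.var.dim - c : ℕ) : ℤ) - Nat.card N * X.dim))
      (fun g b hb => by
        have h1 := chow_taut hC B (g := g.1) (fun i b hb => chow_pull hC pM hM j a htriv g.2 hb) hb
        rw [rhoPow_apply, h1]
        exact hb) (B.var.dim - c)
      (fun x => localStep_all hsep ha hM hX hdim hC hS hΔ hN B B₀ x (B.var.dim - c)) z
      (fun y hy => by
        have := hz y hy
        omega)
      (fun g => hinv g.1 g.2)
    have h3 : (B.var.dim - (B.var.dim - c : ℕ) : ℤ) = c := by omega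
    rwa [h3] at key

end Setup

end

end Pool.Agent.Helper11.PW
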