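import Mathlib
import Pool.Agent.Helper11.PW.MemTaut
import Pool.Agent.Helper11.PW.St.D11c
import Pool.Agent.Helper11.PW.St.D12
import Pool.Agent.Helper11.PW.St.D12b
import Pool.Agent.Helper11.PW.St.S2
import Pool.Agent.Helper11.PW.St.S3

/-!
# Nilpotence on the powers of the zero locus of a generic section
-/

universe u v w

open CategoryTheory AlgebraicGeometry Limits

namespace Pool.Agent.Helper11.PW

open Pool.Agent.Helper10 Pool.Agent.Helper10.SmProjVar Pool.Agent.Helper47.Chow
open Pool.Agent.Helper47.Desc Pool.Agent.Helper47.Spread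

noncomputable section

variable {F K : Type u} [Field F] [Field K] [Algebra F K] {M₀ : SmProjVar F} {r : ℕ} {I : Type}
  [Fintype I] {L : Type v} [Field L] [CharZero L] {W : WeilCohomology.{u, v, w} K L}

/-- The orbits of the points of the square of a power are finite. -/
theorem finiteOrbits_pow {S : Sections M₀ r I} {a : I → K}
    [Normal (IntermediateField.adjoin F (Set.range a)) K] {M X : SmProjVar K}
    {pM : M.toOver.left ⟶ M₀.toOver.left}
    (hM : IsPullback pM M.toOver.hom M₀.toOver.hom (specMap F K)) {j : X.toOver ⟶ M.toOver}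
    [IsClosedImmersion j.left] (hX : IsZeroLocus S a X (j.left ≫ pM)) {N : Type} [Finite N]
    (B : Pow X N) (y : B.var.Pt) :
    (Set.range fun g : galGroup (F := F) a (j.left ≫ pM) => (B.aut g.1).pt y).Finite := by
  classical
  let B₀ : Pow M₀ N := pw M₀ N
  let _ : Fintype N := Fintype.ofFinite N
  let e : Fin (Fintype.card N * r) ≃ N × Fin r :=
    (Fintype.equivFinOfCardEq (by rw [Fintype.card_prod, Fintype.card_fin])).symm
  let MN : Pow M N := pw M N
  have hθ := mapOver_thetaPow B B₀ MN pM hM.w j hX.w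
  have : IsClosedImmersion (B.mapOver MN j).left := isClosedImmersion_mapOver B MN j
  have hA : IsAffineHom ((B.mapOver MN j).left ≫ thetaPow MN B₀ pM hM.w) :=
    isAffineHom_comp (thetaPow MN B₀ pM hM.w) (isPullback_thetaPow pM hM MN B₀) (B.mapOver MN j)
  rw [hθ] at hA
  refine (finite_orbits (isZeroLocus_pow hX B B₀ e) y).subset ?_
  rintro _ ⟨g, rfl⟩
  exact ⟨⟨B.aut g.1, aut_mem hX.w B B₀ g.2⟩, rfl⟩

/-- The orbits of the points of the square of a power under the squares of the automorphisms. -/
lemma finiteOrbits_sq {S : Sections M₀ r I} {a : I → K}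
    [Normal (IntermediateField.adjoin F (Set.range a)) K] {M X : SmProjVar K}
    {pM : M.toOver.left ⟶ M₀.toOver.left}
    (hM : IsPullback pM M.toOver.hom M₀.toOver.hom (specMap F K)) {j : X.toOver ⟶ M.toOver}
    [IsClosedImmersion j.left] (hX : IsZeroLocus S a X (j.left ≫ pM)) {T : Type} [Finite T]
    (A : Pow X T) :
    FiniteOrbits A.var ((galGroup (F := F) a (j.left ≫ pM)).map A.autHom) := by
  intro p
  refine (finiteOrbits_pow hM hX (A.prod A) p).subset ?_
  rintro _ ⟨⟨_, g, hg, rfl⟩, rfl⟩
  refine ⟨⟨g, hg⟩, ?_⟩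
  change ((A.prod A).aut g).pt p = (sq (A.aut g) : SemiAut (A.prod A).var).pt p
  rw [sq_aut]
  rfl

/-- **Theorem.** The homologically trivial correspondences on the varieties whose motive is a direct
summand of a sum of Tate twists of the motive of the power `X^T`, `|T| ≤ n`, of the zero locus of a
generic section are nilpotent. -/
theorem nilHom_summand' {S : Sections M₀ r I} {n : ℕ} (hsep : SepPts S (2 * n)) {a : I → K}
    (ha : AlgebraicIndependent F a) [Normal (IntermediateField.adjoin F (Set.range a)) K]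
    {M X : SmProjVar K} {pM : M.toOver.left ⟶ M₀.toOver.left}
    (hM : IsPullback pM M.toOver.hom M₀.toOver.hom (specMap F K)) {j : X.toOver ⟶ M.toOver}
    [IsClosedImmersion j.left] (hX : IsZeroLocus S a X (j.left ≫ pM)) (hdim : M.dim = X.dim + r)
    {C : ChowTheory W} (hC : IsEquivariant C) (hS : HasSupport C)
    (hΔ : C.Δ M ∈ decomposable C M)
    (htriv : ∀ h : SemiAut M, h.sch ≫ pM = pM → ∀ z : CH M, h.chow z = z)
    (hd : 0 < X.dim) {σ : List (CH X × CH X)} (hσ : Complete C (ambL C j) σ)
    (hσ' : Complete C (ambL C j) (σ.map Prod.swap))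
    (hF : ∀ (N : Type) [Finite N], Nat.card N ≤ 2 * n → HasFrames C (ambL C j) N)
    {T : Type} [Finite T] (hT : Nat.card T ≤ n) (A : Pow X T) {Y : SmProjVar K}
    (hY : IsSummand C A.var Y) : NilHom C Y := by
  classical
  let _ : Fintype T := Fintype.ofFinite T
  have h𝒜 : IsAmb C (ambL C j) := isAmb_ambL j
  have hcard : Nat.card (T ⊕ T) ≤ 2 * n := by
    rw [Nat.card_sum]
    omega
  obtain ⟨κ, _, e, he⟩ := exists_killData (n := n) hC h𝒜 hd hF hσ hσ' hT A
      (galGroup (F := F) a (j.left ≫ pM))
      (fun g hg i b hb => chow_pull hC pM hM j a htriv hg hb) (by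
    intro γ hγ hinv
    have h1 := mem_taut hsep ha hM hX hdim hC hS hΔ htriv hcard (A.prod A) hγ hinv
    have h2 : (2 * (A.var.dim : ℤ) - Nat.card (T ⊕ T) * X.dim) = 0 := by
      rw [Pow.dim_eq W A, Nat.card_sum]
      push_cast
      ring
    rwa [h2] at h1)
  exact nilHom_of_killData hC (finiteOrbits_sq hM hX A) he hY

end

end Pool.Agent.Helper11.PW
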