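import Mathlib
import Pool.Agent.Helper11.PW.NilPow
import Pool.Agent.Helper11.PW.FinalDefs
import Pool.Agent.Helper11.PW.St.D13
import Pool.Agent.Helper11.PW.St.K1
import Pool.Agent.Helper11.PW.St.K4
import Pool.Agent.Helper11.PW.St.K7
import Pool.Agent.Helper11.PW.St.AC2
import Pool.Agent.Helper11.PW.St.AC3
import Pool.Agent.Helper11.PW.St.AC4
import Pool.Agent.Helper11.PW.St.S4

/-!
# Powers of zero loci of generic sections: the theorem
-/

universe u v w

open CategoryTheory AlgebraicGeometry Limits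

namespace Pool.Agent.Helper11.Powers

open Pool.Agent.Helper10 Pool.Agent.Helper10.SmProjVar Pool.Agent.Helper47.Chow
open Pool.Agent.Helper47.Desc (IsEquivariant SemiAut)
open Pool.Agent.Helper47.Zero
open Pool.Agent.Helper11.PW

noncomputable section

variable {F K : Type u} [Field F] [Field K] [Algebra F K] {M₀ : SmProjVar F} {r : ℕ} {I : Type}
  {L : Type v} [Field L] [CharZero L] {W : WeilCohomology.{u, v, w} K L}

lemma sepPts_old {S : Sections M₀.toOver.left r I} {m : ℕ} (h : Independent S m) :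
    SepPts S.old m := by
  intro T _ _ hT E _ x hx hx' z
  obtain ⟨i, J, hJ⟩ := h T hT E x hx hx' z
  exact ⟨i, J, hJ⟩

lemma isPow_old {X P : SmProjVar K} {n : ℕ} {p : Fin n → (P.toOver ⟶ X.toOver)}
    (h : IsPower X P p) : IsPow X P p := ⟨h.exists_lift, h.unique⟩

lemma vanishing_old {C : ChowTheory W} {M X : SmProjVar K} {j : X.toOver ⟶ M.toOver}
    {x : W.H X} (h : IsVanishing W j x) : Vanishing C (ambL C j) x := by
  refine ⟨h.1, ?_⟩
  rintro i _ ⟨z, hz, rfl⟩
  rw [C.cl_pull]
  exact h.2 _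

lemma nondeg_old {C : ChowTheory W} {M X : SmProjVar K} {j : X.toOver ⟶ M.toOver}
    (h : Nondegenerate C j) : ∀ i l, i + l = X.dim → 2 * i ≤ X.dim → ∀ b ∈ ambL C j i,
      (∀ b' ∈ ambL C j l, PW.deg C X (C.mul X b b') = 0) → b = 0 := by
  rintro i l hil hi _ ⟨z, hz, rfl⟩ h0
  refine h i l hil (by omega) z hz fun b hb => ?_
  have h1 := h0 (C.pull j b) ⟨b, hb, rfl⟩
  have h2 := tr_cl_deg C X (C.mul X (C.pull j z) (C.pull j b))
  rw [h1, C.cl_mul] at h2
  rw [Rat.cast_zero] at h2
  exact h2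

/-- The main theorem in the notation of the proofs. -/
theorem nilHom_summand_normal {S : Helper47.Spread.Sections M₀ r I} [Fintype I] {n : ℕ}
    (hn : 0 < n) (hind : SepPts S (2 * n))
    {a : I → K} (ha : AlgebraicIndependent F a)
    [Normal (IntermediateField.adjoin F (Set.range a)) K]
    {M X : SmProjVar K} (pM : M.toOver.left ⟶ M₀.toOver.left)
    (hM : IsPullback pM M.toOver.hom M₀.toOver.hom (Helper47.Spread.specMap F K))
    (j : X.toOver ⟶ M.toOver)
    [IsClosedImmersion j.left] (hX : Helper47.Spread.IsZeroLocus S a X (j.left ≫ pM))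
    (hdim : M.dim = X.dim + r) {C : ChowTheory W} (hC : IsEquivariant C) (hS : HasSupport C)
    (hΔ : DiagonalDecomposes C M) (htriv : ActsTrivially pM) (hnd : Nondegenerate C j)
    (hvan : VanishingDimAtLeast W j n) {T : Type} [Finite T] (hT : Nat.card T ≤ n)
    (A : Pow X T) {Y : SmProjVar K} (hY : IsSummand C A.var Y) :
    Helper47.Desc.NilHom C Y := by
  classical
  obtain ⟨b, x, hx, hli, hb⟩ := hvan
  have h𝒜 : IsAmb C (ambL C j) := isAmb_ambL j
  have hfin : ∀ i, 2 * i ≤ X.dim → Module.Finite ℚ (ambL C j i) := fun i _ => by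
    have := finite_CHiL hΔ i
    unfold ambL
    infer_instance
  obtain ⟨σ, hσ, hσ'⟩ := exists_complete h𝒜 hfin (nondeg_old hnd)
  have hb' : 0 < b := by
    split_ifs at hb <;> omega
  have hd : 0 < X.dim := dim_pos h𝒜 (vanishing_old (C := C) (hx ⟨0, hb'⟩)) (hli.ne_zero _)
  let _ : Fintype T := Fintype.ofFinite T
  exact nilHom_summand' hind ha hM hX hdim hC (hasSupport_old hS) hΔ
    htriv hd hσ hσ' (fun N _ hN => hasFrames_of_li h𝒜 hσ hσ' x
      (fun i => vanishing_old (hx i)) hli hb N hN) hT A hY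

/-- The main theorem. -/
theorem nilHom_summand {S : Sections M₀.toOver.left r I} [Fintype I] {n : ℕ} (hn : 0 < n)
    (hind : Independent S (2 * n))
    {a : I → K} (ha : AlgebraicIndependent F a)
    (hK : IsAlgClosed K ∨ Normal (IntermediateField.adjoin F (Set.range a)) K)
    {M X : SmProjVar K} (pM : M.toOver.left ⟶ M₀.toOver.left)
    (hM : IsPullback pM M.toOver.hom M₀.toOver.hom (specMap F K)) (j : X.toOver ⟶ M.toOver)
    [IsClosedImmersion j.left]
    (hX : IsZeroLocus S a M₀.toOver.hom (specMap F K) (j.left ≫ pM) X.toOver.hom)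
    (hdim : M.dim = X.dim + r) {C : ChowTheory W} (hC : IsEquivariant C) (hS : HasSupport C)
    (hΔ : DiagonalDecomposes C M) (htriv : ActsTrivially pM) (hnd : Nondegenerate C j)
    (hvan : VanishingDimAtLeast W j n) {T : Type} [Finite T] (hT : Nat.card T ≤ n)
    (A : Pow X T) {Y : SmProjVar K} (hY : IsSummand C A.var Y) :
    Helper47.Desc.NilHom C Y := by
  rcases hK with hK | hK
  · obtain ⟨F', ha', hn'⟩ := exists_intermediate a ha
    obtain ⟨M₀', p, hp⟩ := exists_baseChange F' M₀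
    obtain ⟨pM', hpM, hM'⟩ := exists_pM pM hM p hp
    have hA : IsAffineHom p := isAffineHom_bc p hp
    have hX' := isZeroLocus_bc (isZeroLocus_old hX) p hp (j.left ≫ pM')
      (by rw [Category.assoc, hpM]) (by rw [Category.assoc, hM'.w, ← Category.assoc, Over.w])
    exact nilHom_summand_normal hn (sepPts_bc (sepPts_old hind) p hp) ha' pM' hM' j hX' hdim hC hS
      hΔ (fun h hh z => htriv h (by rw [← hpM, ← Category.assoc, hh]) z) hnd hvan hT A hY
  · exact nilHom_summand_normal hn (sepPts_old hind) ha pM hM j (isZeroLocus_old hX) hdim hC hS hΔ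
      htriv hnd hvan hT A hY

/-- The cohomology of `X` is algebraic outside the middle degree. -/
lemma algIn_off {C : ChowTheory W} {M X : SmProjVar K} {j : X.toOver ⟶ M.toOver}
    (hΔ : DiagonalDecomposes C M) (hamb : AmbientOffMiddle W j) :
    ∀ l, l ≠ X.dim → AlgIn C X l := fun l hl =>
  algIn_of_surj j (algIn_of_decomposable hΔ l) fun x hx => by
    obtain ⟨y, hy⟩ := hamb l hl x hx
    exact ⟨y, hy⟩

lemma hasKunneth_of_algIn {C : ChowTheory W} {X : SmProjVar K}
    (h : ∀ l, l ≠ X.dim → AlgIn C X l) : HasKunneth C X := by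
  obtain ⟨π, hπ⟩ := (algebraicOffMiddle X (C := C) h).1
  exact fun l => ⟨π l, hπ.mem l, hπ.act_same l, fun m hm => hπ.act_other l m hm.symm⟩

/-- The motive of `P` is a summand of itself. -/
lemma isSummand_refl (C : ChowTheory W) (P : SmProjVar K) : IsSummand C P P := by
  refine ⟨1, fun _ => P.dim, fun _ => P.dim, fun _ => C.Δ P, fun _ => C.Δ P,
    fun _ => ⟨rfl, Δ_mem C P, Δ_mem C P⟩, ?_⟩
  rw [Fin.sum_univ_one, C.Δ_comp]

/-- The consequences for the direct summands. -/
theorem consequences_summand {C : ChowTheory W} {M X : SmProjVar K} {j : X.toOver ⟶ M.toOver}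
    (hΔ : DiagonalDecomposes C M) {n : ℕ}
    {P : SmProjVar K} {p : Fin n → (P.toOver ⟶ X.toOver)} (hP : IsPower X P p)
    {Y : SmProjVar K} (hY : IsSummand C P Y) (h : Helper47.Desc.NilHom C Y) :
    NilHom C Y ∧
    (∀ i π π', IsCK C Y π → IsCK C Y π' → C.MurreD Y π i → C.MurreD Y π' i) ∧
    (AmbientOffMiddle W j → ∃ π, IsCK C Y π) := by
  let A : Pow X (Fin n) := ⟨P, p, isPow_old hP⟩
  refine ⟨nilHom_iff.mpr h, fun i π π' hπ hπ' hD =>
    Helper47.Desc.murreD_of_nilHom h i (isCK_iff.mp hπ) (isCK_iff.mp hπ') hD, fun hamb => ?_⟩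
  have hK : HasKunneth C P := hasKunneth_pow (hasKunneth_of_algIn (algIn_off hΔ hamb)) A
  obtain ⟨π, hπ⟩ := Helper11.Murre.exists_isCK_of_kunneth h (hasKunneth_of_isSummand hK hY)
  exact ⟨π, isCK_iff.mpr hπ⟩

/-- Murre's conjecture (D) in high codimension for the powers. -/
theorem murreD_power {C : ChowTheory W} {M X : SmProjVar K} {j : X.toOver ⟶ M.toOver}
    (hΔ : DiagonalDecomposes C M) {n : ℕ}
    {P : SmProjVar K} {p : Fin n → (P.toOver ⟶ X.toOver)} (hP : IsPower X P p)
    (h : Helper47.Desc.NilHom C P) (hamb : AmbientOffMiddle W j) (i : ℕ)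
    (π : ℕ → CH (P.prod P)) (hπ : IsCK C P π) (hi : 2 * n * X.dim < 2 * i + X.dim) :
    C.MurreD P π i := by
  let A : Pow X (Fin n) := ⟨P, p, isPow_old hP⟩
  have hoff := algIn_off hΔ hamb
  have hdimP : P.dim = n * X.dim := by
    have := Pow.dim_eq W A
    rwa [Nat.card_eq_fintype_card, Fintype.card_fin] at this
  have hcard : Nat.card (Fin n) = n := by rw [Nat.card_eq_fintype_card, Fintype.card_fin]
  have h2 : 2 * (n * X.dim) < 2 * i + X.dim := by
    have : 2 * n * X.dim = 2 * (n * X.dim) := by ring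
    omega
  refine murreD_of_algIn h (fun l hl => ?_) (fun l hl => ?_) (isCK_iff.mp hπ)
  · refine algIn_pow hoff A (Or.inr ?_)
    rw [hcard]
    omega
  · refine algIn_pow hoff A (Or.inl ?_)
    rw [hdimP] at hl
    omega

end

end Pool.Agent.Helper11.Powers
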